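import Pool.Agent.Helper187.CC.Stmts

set_option autoImplicit false
open Finset

namespace H187CC
namespace H633

/-- sum of a periodic function over a period does not depend on the start -/
theorem sum_per {n : ℕ} {P : ℕ → ℝ} (h : ∀ i, P (i + n) = P i) (j : ℕ) :
    ∑ i ∈ range n, P (i + j) = ∑ i ∈ range n, P i := by
  induction j with
  | zero => simp
  | succ j ih =>
    rw [← ih]
    have h1 := Finset.sum_range_succ (fun i => P (i + j)) n
    have h2 := Finset.sum_range_succ' (fun i => P (i + j)) n
    have h3 : P (n + j) = P (0 + j) := by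
      rw [zero_add, add_comm n j, h]
    have h4 : ∑ i ∈ range n, P (i + (j + 1)) = ∑ i ∈ range n, P (i + 1 + j) := by
      apply Finset.sum_congr rfl
      intro i _
      congr 1
      ring
    rw [h4]
    linarith

noncomputable def Sj (n : ℕ) (f g : IA) (j : ℕ) : ℝ :=
  ∑ i ∈ range n, f i (i + j) * g (i + j) (i + n)

theorem mul_eq (f g : IA) (i n : ℕ) :
    (f * g) i (i + n) = ∑ j ∈ range (n + 1), f i (i + j) * g (i + j) (i + n) := by
  rw [IncidenceAlgebra.mul_apply]
  rw [← Finset.Ico_succ_right_eq_Icc, Finset.sum_Ico_eq_sum_range]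
  apply Finset.sum_congr
  · congr 1
    simp only [Nat.succ_eq_succ, Nat.succ_eq_add_one]
    omega
  · intros; rfl

theorem tr_eq (n : ℕ) (f g : IA) : tr n (f * g) = ∑ j ∈ range (n + 1), Sj n f g j := by
  unfold tr Sj
  rw [Finset.sum_comm]
  apply Finset.sum_congr rfl
  intro i _
  exact mul_eq f g i n

theorem Sj_swap {n : ℕ} {f g : IA} (hf : per n f) (hg : per n g) {j : ℕ} (hj : j ≤ n) :
    Sj n f g j = Sj n g f (n - j) := by
  unfold Sj
  have hP : ∀ i, (fun i => g i (i + (n - j)) * f (i + (n - j)) (i + n)) (i + n)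
      = (fun i => g i (i + (n - j)) * f (i + (n - j)) (i + n)) i := by
    intro i
    simp only
    have e1 : i + n + (n - j) = i + (n - j) + n := by ring
    rw [e1, hg, hf]
  refine Eq.trans ?_ (sum_per (P := fun i => g i (i + (n - j)) * f (i + (n - j)) (i + n)) hP j)
  apply Finset.sum_congr rfl
  intro i _
  have e1 : i + j + (n - j) = i + n := by omega
  have e2 : i + j + n = (i + j) + n := rfl
  rw [e1]
  rw [show f (i + n) (i + j + n) = f i (i + j) from hf i (i + j)]
  ring

end H633

theorem taskTr : TaskTr := by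
  intro n f g hf hg
  rw [H633.tr_eq, H633.tr_eq]
  rw [← Finset.sum_range_reflect]
  apply Finset.sum_congr rfl
  intro j hj
  have hj' : j ≤ n := by
    have := Finset.mem_range.mp hj
    omega
  have e : n + 1 - 1 - j = n - j := by omega
  rw [e, H633.Sj_swap hf hg (Nat.sub_le n j)]
  congr 1
  omega

namespace H633

noncomputable def U' (n : ℕ) (P D : IA) (s : ℕ) : ℝ :=
  ∑ a ∈ Ico s (s + n), ∑ b ∈ Ico a (s + n), D a b * P b (a + n)

theorem Ico_part (f g : IA) (s n : ℕ) (hn : 0 < n) (hg : g (s + n) (s + n) = 1)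
    (h : f * g = 1) :
    ∑ b ∈ Ico s (s + n), f s b * g b (s + n) = - f s (s + n) := by
  have h1 : (f * g) s (s + n) = 0 := by
    rw [h, IncidenceAlgebra.one_apply]
    simp [hn.ne']
  rw [IncidenceAlgebra.mul_apply, ← Finset.sum_Ico_add_eq_sum_Icc (by omega), hg] at h1
  linarith

theorem Ioc_part (f g : IA) (s n : ℕ) (hn : 0 < n) (hf : f s s = 1)
    (h : f * g = 1) :
    ∑ a ∈ Ico (s + 1) (s + n + 1), f s a * g a (s + n) = - g s (s + n) := by
  have h1 : (f * g) s (s + n) = 0 := by
    rw [h, IncidenceAlgebra.one_apply]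
    simp [hn.ne']
  rw [IncidenceAlgebra.mul_apply, ← Finset.Ico_succ_right_eq_Icc] at h1
  simp only [Nat.succ_eq_succ, Nat.succ_eq_add_one] at h1
  rw [Finset.sum_eq_sum_Ico_succ_bot (by omega), hf] at h1
  linarith

theorem U'_eq (n : ℕ) (P D : IA) (s : ℕ) (hn : 0 < n) (hP : ∀ a, P a a = 1)
    (h : D * P = 1) : U' n P D s = cutU n P D s := by
  unfold U' cutU
  rw [Finset.sum_eq_sum_Ico_succ_bot (by omega), Ico_part D P s n hn (hP _) h]
  have : Ico (s + 1) (s + n) = Ioo s (s + n) := by
    ext x; simp only [Finset.mem_Ico, Finset.mem_Ioo]; omega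
  rw [this]
  ring

theorem U'_succ (n : ℕ) (P D : IA) (s : ℕ) (hn : 0 < n) (hPp : per n P) (hP : ∀ a, P a a = 1)
    (h : D * P = 1) (h' : P * D = 1) : U' n P D (s + 1) = U' n P D s := by
  unfold U'
  rw [Finset.sum_eq_sum_Ico_succ_bot (a := s) (b := s + n) (by omega), Ico_part D P s n hn (hP _) h]
  have e : s + 1 + n = s + n + 1 := by ring
  rw [e]
  have h1 : ∀ a ∈ Ico (s + 1) (s + n + 1), ∑ b ∈ Ico a (s + n + 1), D a b * P b (a + n)
      = (∑ b ∈ Ico a (s + n), D a b * P b (a + n)) + P s a * D a (s + n) := by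
    intro a ha
    have ha' := Finset.mem_Ico.mp ha
    rw [Finset.sum_Ico_succ_top (by omega), hPp s a]
    ring
  rw [Finset.sum_congr rfl h1, Finset.sum_add_distrib, Ioc_part P D s n hn (hP _) h']
  rw [Finset.sum_Ico_succ_top (by omega)]
  simp
  ring

theorem U'_sum (n : ℕ) (P D : IA) (hPp : per n P) (hDp : per n D) :
    ∑ s ∈ range n, U' n P D s = ∑ j ∈ range n, ((n - j : ℕ) : ℝ) * Sj n D P j := by
  have h1 : ∀ s, U' n P D s = ∑ i ∈ range n, ∑ j ∈ range (n - i),
      D (s + i) (s + i + j) * P (s + i + j) (s + i + n) := by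
    intro s
    unfold U'
    rw [Finset.sum_Ico_eq_sum_range]
    have : s + n - s = n := by omega
    rw [this]
    apply Finset.sum_congr rfl
    intro i _
    rw [Finset.sum_Ico_eq_sum_range]
    have : s + n - (s + i) = n - i := by omega
    rw [this]
  simp only [h1]
  rw [Finset.sum_comm]
  have h2 : ∀ i ∈ range n, ∑ s ∈ range n, ∑ j ∈ range (n - i),
      D (s + i) (s + i + j) * P (s + i + j) (s + i + n) = ∑ j ∈ range (n - i), Sj n D P j := by
    intro i _
    rw [Finset.sum_comm]
    apply Finset.sum_congr rfl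
    intro j _
    unfold Sj
    have hper : ∀ k, (fun k => D k (k + j) * P (k + j) (k + n)) (k + n)
        = (fun k => D k (k + j) * P (k + j) (k + n)) k := by
      intro k
      simp only
      have e1 : k + n + j = k + j + n := by ring
      rw [e1, hDp, hPp]
    have h5 := sum_per (P := fun k => D k (k + j) * P (k + j) (k + n)) hper i
    refine Eq.trans ?_ h5
    apply Finset.sum_congr rfl
    intro k _
    rfl
  rw [Finset.sum_congr rfl h2]
  rw [Finset.sum_comm' (s' := fun j => range (n - j)) (t' := range n)]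
  · apply Finset.sum_congr rfl
    intro j _
    rw [Finset.sum_const, Finset.card_range, nsmul_eq_mul]
  · intro x y
    simp only [Finset.mem_range]
    omega

end H633

theorem taskCut : TaskCut := by
  intro n P D hn hPp hDp hP _ hPD hDP s
  have hconst : ∀ s, H633.U' n P D s = H633.U' n P D 0 := by
    intro s
    induction s with
    | zero => rfl
    | succ s ih => rw [H633.U'_succ n P D s hn hPp hP hDP hPD, ih]
  rw [← H633.U'_eq n P D s hn hP hDP, hconst s]
  have h1 : (n : ℝ) * H633.U' n P D 0 = ∑ s ∈ range n, H633.U' n P D s := by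
    rw [Finset.sum_congr rfl (fun s _ => hconst s), Finset.sum_const, Finset.card_range,
      nsmul_eq_mul]
  rw [h1, H633.U'_sum n P D hPp hDp, H633.tr_eq]
  have h2 : ∀ j ∈ range (n + 1), H633.Sj n (dd P) D j = (j : ℝ) * H633.Sj n D P (n - j) := by
    intro j hj
    have hj' : j ≤ n := by
      have := Finset.mem_range.mp hj
      omega
    rw [← H633.Sj_swap hPp hDp hj']
    unfold H633.Sj
    rw [Finset.mul_sum]
    apply Finset.sum_congr rfl
    intro i _
    have : dd P i (i + j) = ((i + j : ℕ) - (i : ℝ)) * P i (i + j) := rfl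
    rw [this]
    push_cast
    ring
  rw [Finset.sum_congr rfl h2,
    ← Finset.sum_range_reflect (fun j => (j : ℝ) * H633.Sj n D P (n - j)) (n + 1),
    Finset.sum_range_succ]
  have e0 : n + 1 - 1 - n = 0 := by omega
  rw [e0]
  simp only [Nat.cast_zero, zero_mul, add_zero]
  apply Finset.sum_congr rfl
  intro j hj
  have hj' := Finset.mem_range.mp hj
  have e1 : n + 1 - 1 - j = n - j := by omega
  have e2 : n - (n - j) = j := by omega
  rw [e1, e2]

end H187CC
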